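import Pool.Agent.H739SJ.Ext

/-!
The solvable Jordan algebras `Alg W τ N` (with `N + 3 = p` in characteristic `p`).
-/

namespace Pool.Agent.H739SJ

open ExteriorAlgebra

universe u

variable {F : Type u} [Field F] {W : Type u} [AddCommGroup W] [Module F W]

/-- The underlying space: `V ⊕ M₁ ⊕ (M₂ ⊕ M₃ ⊕ …) ⊕ Z`. -/
def Alg (_τ : ExteriorAlgebra F W →ₗ[F] F) (_N : ℕ) : Type u :=
  W × ExteriorAlgebra F W × (ℕ → ExteriorAlgebra F W) × F

variable {τ : ExteriorAlgebra F W →ₗ[F] F} {N : ℕ}

instance : AddCommGroup (Alg τ N) :=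
  inferInstanceAs (AddCommGroup (W × ExteriorAlgebra F W × (ℕ → ExteriorAlgebra F W) × F))

instance : Module F (Alg τ N) :=
  inferInstanceAs (Module F (W × ExteriorAlgebra F W × (ℕ → ExteriorAlgebra F W) × F))

namespace Alg

/-- the `V`-component -/
def c (X : Alg τ N) : W := X.1
/-- the `M₁`-component -/
def al (X : Alg τ N) : ExteriorAlgebra F W := X.2.1
/-- the `M_{k+2}`-component -/
def de (X : Alg τ N) (k : ℕ) : ExteriorAlgebra F W := X.2.2.1 k
/-- the `Z`-component -/
def z (X : Alg τ N) : F := X.2.2.2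

/-- constructor -/
def mk (c : W) (al : ExteriorAlgebra F W) (de : ℕ → ExteriorAlgebra F W) (z : F) : Alg τ N :=
  (c, al, de, z)

theorem ext {X Y : Alg τ N} (h1 : X.c = Y.c) (h2 : X.al = Y.al) (h3 : ∀ k, X.de k = Y.de k)
    (h4 : X.z = Y.z) : X = Y :=
  Prod.ext h1 (Prod.ext h2 (Prod.ext (funext h3) h4))

@[simp] theorem c_mk (a b d e) : (mk a b d e : Alg τ N).c = a := rfl
@[simp] theorem al_mk (a b d e) : (mk a b d e : Alg τ N).al = b := rfl
@[simp] theorem de_mk (a b d e k) : (mk a b d e : Alg τ N).de k = d k := rfl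
@[simp] theorem z_mk (a b d e) : (mk a b d e : Alg τ N).z = e := rfl

@[simp] theorem c_zero : (0 : Alg τ N).c = 0 := rfl
@[simp] theorem al_zero : (0 : Alg τ N).al = 0 := rfl
@[simp] theorem de_zero (k) : (0 : Alg τ N).de k = 0 := rfl
@[simp] theorem z_zero : (0 : Alg τ N).z = 0 := rfl
@[simp] theorem c_add (X Y : Alg τ N) : (X + Y).c = X.c + Y.c := rfl
@[simp] theorem al_add (X Y : Alg τ N) : (X + Y).al = X.al + Y.al := rfl
@[simp] theorem de_add (X Y : Alg τ N) (k) : (X + Y).de k = X.de k + Y.de k := rfl
@[simp] theorem z_add (X Y : Alg τ N) : (X + Y).z = X.z + Y.z := rfl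
@[simp] theorem c_sub (X Y : Alg τ N) : (X - Y).c = X.c - Y.c := rfl
@[simp] theorem al_sub (X Y : Alg τ N) : (X - Y).al = X.al - Y.al := rfl
@[simp] theorem de_sub (X Y : Alg τ N) (k) : (X - Y).de k = X.de k - Y.de k := rfl
@[simp] theorem z_sub (X Y : Alg τ N) : (X - Y).z = X.z - Y.z := rfl
@[simp] theorem c_neg (X : Alg τ N) : (-X).c = -X.c := rfl
@[simp] theorem al_neg (X : Alg τ N) : (-X).al = -X.al := rfl
@[simp] theorem de_neg (X : Alg τ N) (k) : (-X).de k = -X.de k := rfl
@[simp] theorem z_neg (X : Alg τ N) : (-X).z = -X.z := rfl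
@[simp] theorem c_smul (r : F) (X : Alg τ N) : (r • X).c = r • X.c := rfl
@[simp] theorem al_smul (r : F) (X : Alg τ N) : (r • X).al = r • X.al := rfl
@[simp] theorem de_smul (r : F) (X : Alg τ N) (k) : (r • X).de k = r • X.de k := rfl
@[simp] theorem z_smul (r : F) (X : Alg τ N) : (r • X).z = r • X.z := rfl

/-- shift coefficient: the product into `M_{k+3}` is only there for `k < N` -/
def kap (F : Type u) [Field F] (N k : ℕ) : F := if k < N then 1 else 0

/-- half of the product into the components `M_{k+2}` -/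
noncomputable def hde (X Y : Alg τ N) (k : ℕ) : ExteriorAlgebra F W :=
  od (X.de k) * ExteriorAlgebra.ι F Y.c + ((k : F) + 2) • (ev (X.de k) * ExteriorAlgebra.ι F Y.c)
  + match k with
    | 0 => ev X.al * od Y.al
    | k + 1 => kap F N k • (od X.al * ev (Y.de k))

/-- half of the product -/
noncomputable def half (X Y : Alg τ N) : Alg τ N :=
  mk 0 (X.al * ExteriorAlgebra.ι F Y.c) (hde X Y) (τ (od X.al * ev (Y.de N)))

noncomputable instance : Mul (Alg τ N) := ⟨fun X Y => half X Y + half Y X⟩

theorem mul_def (X Y : Alg τ N) : X * Y = half X Y + half Y X := rfl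

@[simp] theorem c_mul (X Y : Alg τ N) : (X * Y).c = 0 := by
  simp [mul_def, half]

theorem al_mul (X Y : Alg τ N) : (X * Y).al
    = X.al * ExteriorAlgebra.ι F Y.c + Y.al * ExteriorAlgebra.ι F X.c := by
  simp [mul_def, half]

theorem z_mul (X Y : Alg τ N) : (X * Y).z
    = τ (od X.al * ev (Y.de N)) + τ (od Y.al * ev (X.de N)) := by
  simp [mul_def, half]

theorem de_mul (X Y : Alg τ N) (k : ℕ) : (X * Y).de k = hde X Y k + hde Y X k := by
  simp [mul_def, half]

theorem half_add_left (X Y Z : Alg τ N) : half (X + Y) Z = half X Z + half Y Z := by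
  refine ext ?_ ?_ (fun k => ?_) ?_
  · simp [half]
  · simp [half, add_mul]
  · rcases k with _ | k <;> simp only [half, hde, de_mk, de_add, al_add, map_add, add_mul, smul_add]
      <;> abel
  · simp [half, add_mul]

theorem half_add_right (X Y Z : Alg τ N) : half X (Y + Z) = half X Y + half X Z := by
  refine ext ?_ ?_ (fun k => ?_) ?_
  · simp [half]
  · simp [half, mul_add]
  · rcases k with _ | k <;> simp only [half, hde, de_mk, de_add, al_add, c_add, map_add, mul_add,
      smul_add] <;> abel
  · simp [half, mul_add]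

theorem half_smul_left (r : F) (X Y : Alg τ N) : half (r • X) Y = r • half X Y := by
  refine ext ?_ ?_ (fun k => ?_) ?_
  · simp [half]
  · simp [half]
  · rcases k with _ | k <;> simp only [half, hde, de_mk, de_smul, al_smul, map_smul,
      smul_mul_assoc, smul_add, smul_comm r]
  · simp [half]

theorem half_smul_right (r : F) (X Y : Alg τ N) : half X (r • Y) = r • half X Y := by
  refine ext ?_ ?_ (fun k => ?_) ?_
  · simp [half]
  · simp [half]
  · rcases k with _ | k <;> simp only [half, hde, de_mk, de_smul, al_smul, c_smul, map_smul,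
      mul_smul_comm, smul_add, smul_comm r]
  · simp [half]

noncomputable instance : NonUnitalNonAssocRing (Alg τ N) :=
  { (inferInstance : AddCommGroup (Alg τ N)) with
    mul := (· * ·)
    left_distrib := fun X Y Z => by
      change X * (Y + Z) = X * Y + X * Z
      simp only [mul_def, half_add_left, half_add_right]; abel
    right_distrib := fun X Y Z => by
      change (X + Y) * Z = X * Z + Y * Z
      simp only [mul_def, half_add_left, half_add_right]; abel
    zero_mul := fun X => by
      change (0 : Alg τ N) * X = 0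
      have h1 := half_smul_left (0 : F) (0 : Alg τ N) X
      have h2 := half_smul_right (0 : F) X (0 : Alg τ N)
      simp only [zero_smul] at h1 h2
      rw [mul_def, h1, h2, add_zero]
    mul_zero := fun X => by
      change X * (0 : Alg τ N) = 0
      have h1 := half_smul_left (0 : F) (0 : Alg τ N) X
      have h2 := half_smul_right (0 : F) X (0 : Alg τ N)
      simp only [zero_smul] at h1 h2
      rw [mul_def, h1, h2, add_zero] }

instance : IsScalarTower F (Alg τ N) (Alg τ N) := ⟨fun r X Y => by
  change (r • X) * Y = r • (X * Y)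
  simp only [mul_def, half_smul_left, half_smul_right, smul_add]⟩

instance : SMulCommClass F (Alg τ N) (Alg τ N) := ⟨fun r X Y => by
  change r • (X * Y) = X * (r • Y)
  simp only [mul_def, half_smul_left, half_smul_right, smul_add]⟩

theorem comm (X Y : Alg τ N) : X * Y = Y * X := by
  rw [mul_def, mul_def, add_comm]

end Alg

end Pool.Agent.H739SJ
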