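import Mathlib

/-!
Definitions used in the statement: identities, varieties of (not necessarily
associative) algebras, Jordan algebras, solvability.
-/

namespace Pool.Agent.H739SJ

universe u

/-- The algebra `B` satisfies the identity `s`, an element of the free nonassociative
`F`-algebra on countably many variables: `s` vanishes under every substitution. -/
def Satisfies (F : Type u) [Field F] (B : Type u) [NonUnitalNonAssocRing B] [Module F B]
    [IsScalarTower F B B] [SMulCommClass F B B] (s : FreeNonUnitalNonAssocAlgebra F ℕ) : Prop :=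
  ∀ v : ℕ → B, FreeNonUnitalNonAssocAlgebra.lift F v s = 0

/-- `B` belongs to the variety defined by the set `S` of identities. -/
def InVariety (F : Type u) [Field F] (S : Set (FreeNonUnitalNonAssocAlgebra F ℕ))
    (B : Type u) [NonUnitalNonAssocRing B] [Module F B]
    [IsScalarTower F B B] [SMulCommClass F B B] : Prop :=
  ∀ s ∈ S, Satisfies F B s

/-- `B` is a Jordan algebra: `xy = yx` and `(x²y)x = x²(yx)`. -/
def IsJordanAlgebra (B : Type u) [NonUnitalNonAssocRing B] : Prop :=
  (∀ x y : B, x * y = y * x) ∧ ∀ x y : B, ((x * x) * y) * x = (x * x) * (y * x)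

/-- The derived series `B⁽⁰⁾ = B`, `B⁽ᵏ⁺¹⁾ = B⁽ᵏ⁾B⁽ᵏ⁾` (span of the products). -/
def derivedSeries (F : Type u) [Field F] (B : Type u) [NonUnitalNonAssocRing B] [Module F B] :
    ℕ → Submodule F B
  | 0 => ⊤
  | k + 1 => Submodule.span F
      {z | ∃ x ∈ derivedSeries F B k, ∃ y ∈ derivedSeries F B k, z = x * y}

end Pool.Agent.H739SJ
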