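import Mathlib

/-!
Parity in the exterior algebra over a field of characteristic not two: even and odd
parts, super-commutativity, and Frobenius on even elements.
-/

namespace Pool.Agent.H739SJ

open ExteriorAlgebra

variable {F : Type*} [Field F] {W : Type*} [AddCommGroup W] [Module F W]

/-- the parity automorphism -/
noncomputable def sg : ExteriorAlgebra F W →ₐ[F] ExteriorAlgebra F W := CliffordAlgebra.involute

@[simp] theorem sg_ι (w : W) : sg (ExteriorAlgebra.ι F w) = -ExteriorAlgebra.ι F w :=
  CliffordAlgebra.involute_ι w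

@[simp] theorem sg_sg (x : ExteriorAlgebra F W) : sg (sg x) = x :=
  CliffordAlgebra.involute_involute x

/-- even part -/
noncomputable def ev : ExteriorAlgebra F W →ₗ[F] ExteriorAlgebra F W :=
  (2 : F)⁻¹ • (LinearMap.id + (sg : ExteriorAlgebra F W →ₐ[F] _).toLinearMap)

/-- odd part -/
noncomputable def od : ExteriorAlgebra F W →ₗ[F] ExteriorAlgebra F W :=
  (2 : F)⁻¹ • (LinearMap.id - (sg : ExteriorAlgebra F W →ₐ[F] _).toLinearMap)

theorem ev_apply (x : ExteriorAlgebra F W) : ev x = (2 : F)⁻¹ • (x + sg x) := rfl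
theorem od_apply (x : ExteriorAlgebra F W) : od x = (2 : F)⁻¹ • (x - sg x) := rfl

variable (h2 : (2 : F) ≠ 0)
include h2

theorem ev_add_od (x : ExteriorAlgebra F W) : ev x + od x = x := by
  rw [ev_apply, od_apply, ← smul_add]
  have : x + sg x + (x - sg x) = (2 : F) • x := by rw [two_smul]; abel
  rw [this, smul_smul, inv_mul_cancel₀ h2, one_smul]

theorem ev_sub_od (x : ExteriorAlgebra F W) : sg x = ev x - od x := by
  rw [ev_apply, od_apply, ← smul_sub]
  have : x + sg x - (x - sg x) = (2 : F) • sg x := by rw [two_smul]; abel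
  rw [this, smul_smul, inv_mul_cancel₀ h2, one_smul]

theorem ev_mul (x y : ExteriorAlgebra F W) : ev (x * y) = ev x * ev y + od x * od y := by
  simp only [ev_apply, od_apply, map_mul, smul_mul_assoc, mul_smul_comm, ← smul_add]
  have : (x + sg x) * (y + sg y) + (x - sg x) * (y - sg y) = (2 : F) • (x * y + sg x * sg y) := by
    rw [two_smul]; noncomm_ring
  rw [this, smul_smul (2 : F)⁻¹ 2, inv_mul_cancel₀ h2, one_smul]

theorem od_mul (x y : ExteriorAlgebra F W) : od (x * y) = ev x * od y + od x * ev y := by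
  simp only [ev_apply, od_apply, map_mul, smul_mul_assoc, mul_smul_comm, ← smul_add]
  have : (x + sg x) * (y - sg y) + (x - sg x) * (y + sg y) = (2 : F) • (x * y - sg x * sg y) := by
    rw [two_smul]; noncomm_ring
  rw [this, smul_smul (2 : F)⁻¹ 2, inv_mul_cancel₀ h2, one_smul]

theorem ev_ev (x : ExteriorAlgebra F W) : ev (ev x) = ev x := by
  rw [ev_apply (ev x)]
  have : sg (ev x) = ev x := by simp only [ev_apply, map_smul, map_add, sg_sg]; rw [add_comm]
  rw [this, ← two_smul F, smul_smul, inv_mul_cancel₀ h2, one_smul]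

theorem od_od (x : ExteriorAlgebra F W) : od (od x) = od x := by
  rw [od_apply (od x)]
  have : sg (od x) = -od x := by
    simp only [od_apply, map_smul, map_sub, sg_sg]; rw [← smul_neg, neg_sub]
  rw [this, sub_neg_eq_add, ← two_smul F, smul_smul, inv_mul_cancel₀ h2, one_smul]

omit h2 in
theorem sg_ev (x : ExteriorAlgebra F W) : sg (ev x) = ev x := by
  simp only [ev_apply, map_smul, map_add, sg_sg]; rw [add_comm]

omit h2 in
theorem sg_od (x : ExteriorAlgebra F W) : sg (od x) = -od x := by
  simp only [od_apply, map_smul, map_sub, sg_sg]; rw [← smul_neg, neg_sub]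

omit h2 in
theorem od_ev (x : ExteriorAlgebra F W) : od (ev x) = 0 := by
  rw [od_apply, sg_ev, sub_self, smul_zero]

omit h2 in
theorem ev_od (x : ExteriorAlgebra F W) : ev (od x) = 0 := by
  rw [ev_apply, sg_od, add_neg_cancel, smul_zero]

omit h2 in
theorem ev_ι (w : W) : ev (ExteriorAlgebra.ι F w) = 0 := by
  rw [ev_apply, sg_ι, add_neg_cancel, smul_zero]

theorem od_ι (w : W) : od (ExteriorAlgebra.ι F w) = ExteriorAlgebra.ι F w := by
  rw [od_apply, sg_ι, sub_neg_eq_add, ← two_smul F, smul_smul, inv_mul_cancel₀ h2, one_smul]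

theorem ev_algebraMap (r : F) :
    ev (algebraMap F (ExteriorAlgebra F W) r) = algebraMap F (ExteriorAlgebra F W) r := by
  rw [ev_apply, AlgHom.commutes, ← two_smul F, smul_smul, inv_mul_cancel₀ h2, one_smul]

omit h2 in
theorem od_algebraMap (r : F) :
    od (algebraMap F (ExteriorAlgebra F W) r) = 0 := by
  rw [od_apply, AlgHom.commutes, sub_self, smul_zero]

omit h2 in
theorem ι_swap (v w : W) : ExteriorAlgebra.ι F v * ExteriorAlgebra.ι F w
    = -(ExteriorAlgebra.ι F w * ExteriorAlgebra.ι F v) :=
  eq_neg_of_add_eq_zero_left (ι_add_mul_swap v w)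

omit h2 in
theorem mul_ι_comm (x : ExteriorAlgebra F W) (w : W) :
    x * ExteriorAlgebra.ι F w = ExteriorAlgebra.ι F w * sg x := by
  induction x using ExteriorAlgebra.induction with
  | algebraMap r => rw [AlgHom.commutes, Algebra.commutes]
  | ι v => rw [sg_ι, mul_neg, ι_swap]
  | mul a b ha hb => rw [mul_assoc, hb, ← mul_assoc, ha, mul_assoc, map_mul]
  | add a b ha hb => rw [add_mul, ha, hb, map_add, mul_add]

theorem super_comm (x y : ExteriorAlgebra F W) : x * y = ev y * x + od y * sg x := by
  induction y using ExteriorAlgebra.induction generalizing x with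
  | algebraMap r => rw [ev_algebraMap h2, od_algebraMap, zero_mul, add_zero, Algebra.commutes]
  | ι v => rw [ev_ι, od_ι h2, zero_mul, zero_add, mul_ι_comm]
  | mul a b ha hb =>
    rw [← mul_assoc, ha, add_mul, mul_assoc, hb x, mul_assoc, hb (sg x), sg_sg, ev_mul h2,
      od_mul h2]
    noncomm_ring
  | add a b ha hb => rw [mul_add, ha, hb, map_add, map_add]; noncomm_ring

/-- even elements are central -/
theorem ev_comm (x y : ExteriorAlgebra F W) : ev x * y = y * ev x := by
  have h := super_comm h2 (ev x) y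
  rw [sg_ev, ← add_mul, ev_add_od h2] at h
  exact h

/-- odd elements anticommute -/
theorem od_anti (x y : ExteriorAlgebra F W) : od x * od y = -(od y * od x) := by
  have h := super_comm h2 (od x) (od y)
  rw [sg_od, ev_od, od_od h2, zero_mul, zero_add, mul_neg] at h
  exact h

theorem od_sq (x : ExteriorAlgebra F W) : od x * od x = 0 := by
  have h := od_anti h2 x x
  have h' : (2 : F) • (od x * od x) = 0 := by
    rw [two_smul]; nth_rewrite 1 [h]; exact neg_add_cancel _
  exact (smul_eq_zero.mp h').resolve_left h2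

omit h2 in
/-- Frobenius on even elements: the `p`-th power of an even element is a scalar. -/
theorem frob (p : ℕ) [Fact p.Prime] [CharP F p] (hp : p ≠ 2) (x : ExteriorAlgebra F W) :
    ∃ s : F, (ev x) ^ p = algebraMap F (ExteriorAlgebra F W) s := by
  have hpp : p.Prime := Fact.out
  have h2 : (2 : F) ≠ 0 := by
    intro h
    have : ((2 : ℕ) : F) = 0 := by exact_mod_cast h
    rw [CharP.cast_eq_zero_iff F p] at this
    exact hp ((Nat.prime_dvd_prime_iff_eq hpp Nat.prime_two).mp this)
  have : CharP (ExteriorAlgebra F W) p :=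
    charP_of_injective_algebraMap (ExteriorAlgebra.algebraMap_leftInverse W).injective p
  induction x using CliffordAlgebra.left_induction with
  | algebraMap r =>
    refine ⟨r ^ p, ?_⟩
    have : ev (algebraMap F (ExteriorAlgebra F W) r) = algebraMap F (ExteriorAlgebra F W) r :=
      ev_algebraMap h2 r
    rw [map_pow]
    exact congrArg (· ^ p) this
  | add a b ha hb =>
    obtain ⟨s, hs⟩ := ha
    obtain ⟨t, ht⟩ := hb
    refine ⟨s + t, ?_⟩
    rw [map_add, map_add, add_pow_char_of_commute p (ev_comm h2 a (ev b)), hs, ht]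
  | ι_mul x m _ =>
    refine ⟨0, ?_⟩
    have e : ev (CliffordAlgebra.ι (0 : QuadraticForm F W) m * x)
        = ExteriorAlgebra.ι F m * od x := by
      change ev (ExteriorAlgebra.ι F m * x) = _
      rw [ev_mul h2, ev_ι, od_ι h2, zero_mul, zero_add]
    have sq : (ExteriorAlgebra.ι F m * od x) * (ExteriorAlgebra.ι F m * od x) = 0 := by
      have : od x * ExteriorAlgebra.ι F m = -(ExteriorAlgebra.ι F m * od x) := by
        rw [mul_ι_comm, sg_od, mul_neg]
      calc (ExteriorAlgebra.ι F m * od x) * (ExteriorAlgebra.ι F m * od x)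
          = ExteriorAlgebra.ι F m * (od x * ExteriorAlgebra.ι F m) * od x := by noncomm_ring
        _ = -((ExteriorAlgebra.ι F m * ExteriorAlgebra.ι F m) * (od x * od x)) := by
            rw [this]; noncomm_ring
        _ = 0 := by rw [ExteriorAlgebra.ι_sq_zero, zero_mul, neg_zero]
    rw [e, map_zero]
    obtain ⟨k, hk⟩ : ∃ k, p = k + 2 := ⟨p - 2, (Nat.sub_add_cancel hpp.two_le).symm⟩
    rw [hk, pow_add, pow_two, sq, mul_zero]

end Pool.Agent.H739SJ
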