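import Pool.Agent.H739SJ.Alg

namespace Pool.Agent.H739SJ

open ExteriorAlgebra

universe u

variable {F : Type u} [Field F] {W : Type u} [AddCommGroup W] [Module F W]
variable {τ : ExteriorAlgebra F W →ₗ[F] F} {N : ℕ}

section moves
variable (h2 : (2 : F) ≠ 0)
include h2

theorem evι (x : ExteriorAlgebra F W) (c : W) :
    ev x * ExteriorAlgebra.ι F c = ExteriorAlgebra.ι F c * ev x := ev_comm h2 _ _

omit h2 in
theorem odι (x : ExteriorAlgebra F W) (c : W) :
    od x * ExteriorAlgebra.ι F c = -(ExteriorAlgebra.ι F c * od x) := by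
  rw [mul_ι_comm, sg_od, mul_neg]

theorem evι' (x : ExteriorAlgebra F W) (c : W) (t : ExteriorAlgebra F W) :
    ev x * (ExteriorAlgebra.ι F c * t) = ExteriorAlgebra.ι F c * (ev x * t) := by
  rw [← mul_assoc, evι h2, mul_assoc]

theorem odι' (x : ExteriorAlgebra F W) (c : W) (t : ExteriorAlgebra F W) :
    od x * (ExteriorAlgebra.ι F c * t) = -(ExteriorAlgebra.ι F c * (od x * t)) := by
  rw [← mul_assoc, odι, neg_mul, mul_assoc]

theorem odev (x y : ExteriorAlgebra F W) : od x * ev y = ev y * od x := (ev_comm h2 _ _).symm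

theorem odev' (x y t : ExteriorAlgebra F W) : od x * (ev y * t) = ev y * (od x * t) := by
  rw [← mul_assoc, odev h2, mul_assoc]

theorem evev (x y : ExteriorAlgebra F W) : ev x * ev y = ev y * ev x := ev_comm h2 _ _

theorem evev' (x y t : ExteriorAlgebra F W) : ev x * (ev y * t) = ev y * (ev x * t) := by
  rw [← mul_assoc, evev h2, mul_assoc]

theorem od_sq' (x t : ExteriorAlgebra F W) : od x * (od x * t) = 0 := by
  rw [← mul_assoc, od_sq h2, zero_mul]

omit h2 in
theorem ιsq' (c : W) (t : ExteriorAlgebra F W) :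
    ExteriorAlgebra.ι F c * (ExteriorAlgebra.ι F c * t) = 0 := by
  rw [← mul_assoc, ExteriorAlgebra.ι_sq_zero, zero_mul]

end moves

namespace Alg

set_option linter.unusedSimpArgs false in
theorem jordan (h2 : (2 : F) ≠ 0) (hN : ((N : F) + 3) = 0) (X Y : Alg τ N) :
    ((X * X) * Y) * X = (X * X) * (Y * X) := by
  obtain ⟨c, hc⟩ : ∃ c, c = X.c := ⟨_, rfl⟩
  obtain ⟨c', hc'⟩ : ∃ c', c' = Y.c := ⟨_, rfl⟩
  have s1 : ExteriorAlgebra.ι F c' * ExteriorAlgebra.ι F c
      = -(ExteriorAlgebra.ι F c * ExteriorAlgebra.ι F c') := ι_swap _ _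
  have s2 : ∀ t, ExteriorAlgebra.ι F c' * (ExteriorAlgebra.ι F c * t)
      = -(ExteriorAlgebra.ι F c * (ExteriorAlgebra.ι F c' * t)) := by
    intro t; rw [← mul_assoc, s1, neg_mul, mul_assoc]
  refine ext ?_ ?_ (fun k => ?_) ?_
  · simp
  · simp only [al_mul, c_mul, map_zero, mul_zero, add_zero, ← hc, ← hc', zero_add, add_mul,
      mul_assoc, s1, mul_neg, ExteriorAlgebra.ι_sq_zero, ιsq']
    simp
  · rcases k with _ | k
    · simp only [de_mul, hde, al_mul, c_mul, map_zero, mul_zero, add_zero, smul_zero, zero_add,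
        ← hc, ← hc', map_add, map_smul, map_neg, ev_mul h2, od_mul h2, ev_ev h2, od_od h2, ev_od,
        od_ev, ev_ι, od_ι h2, zero_mul, add_mul, mul_add, smul_add, smul_smul, smul_mul_assoc,
        mul_smul_comm, mul_assoc, s1, s2, mul_neg, neg_mul, ExteriorAlgebra.ι_sq_zero, ιsq',
        evι h2, evι' h2, odι, odι' h2, odev h2, odev' h2, od_sq h2, od_sq' h2, neg_neg,
        smul_neg, neg_zero]
      module
    · rcases k with _ | k
      · simp only [de_mul, hde, al_mul, c_mul, map_zero, mul_zero, add_zero, smul_zero, zero_add,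
        ← hc, ← hc', map_add, map_smul, map_neg, ev_mul h2, od_mul h2, ev_ev h2, od_od h2, ev_od,
        od_ev, ev_ι, od_ι h2, zero_mul, add_mul, mul_add, smul_add, smul_smul, smul_mul_assoc,
        mul_smul_comm, mul_assoc, s1, s2, mul_neg, neg_mul, ExteriorAlgebra.ι_sq_zero, ιsq',
        evι h2, evι' h2, odι, odι' h2, odev h2, odev' h2, od_sq h2, od_sq' h2, neg_neg,
        smul_neg, neg_zero]
        push_cast
        module
      · simp only [de_mul, hde, al_mul, c_mul, map_zero, mul_zero, add_zero, smul_zero, zero_add,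
        ← hc, ← hc', map_add, map_smul, map_neg, ev_mul h2, od_mul h2, ev_ev h2, od_od h2, ev_od,
        od_ev, ev_ι, od_ι h2, zero_mul, add_mul, mul_add, smul_add, smul_smul, smul_mul_assoc,
        mul_smul_comm, mul_assoc, s1, s2, mul_neg, neg_mul, ExteriorAlgebra.ι_sq_zero, ιsq',
        evι h2, evι' h2, odι, odι' h2, odev h2, odev' h2, od_sq h2, od_sq' h2, neg_neg,
        smul_neg, neg_zero]
        push_cast
        module
  · simp only [z_mul, c_mul, map_zero, mul_zero, zero_mul, zero_add, add_zero]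
    rw [← map_add, ← map_add]
    congr 1
    rcases N with _ | N
    · simp only [de_mul, hde, al_mul, c_mul, map_zero, mul_zero, add_zero, smul_zero, zero_add,
        ← hc, ← hc', map_add, map_smul, map_neg, ev_mul h2, od_mul h2, ev_ev h2, od_od h2, ev_od,
        od_ev, ev_ι, od_ι h2, zero_mul, add_mul, mul_add, smul_add, smul_smul, smul_mul_assoc,
        mul_smul_comm, mul_assoc, s1, s2, mul_neg, neg_mul, ExteriorAlgebra.ι_sq_zero, ιsq',
        evι h2, evι' h2, odι, odι' h2, odev h2, odev' h2, od_sq h2, od_sq' h2, neg_neg,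
        smul_neg, neg_zero]
      have hN' : ((0 : ℕ) : F) = -3 := by linear_combination hN
      simp only [hN']
      module
    · simp only [de_mul, hde, al_mul, c_mul, map_zero, mul_zero, add_zero, smul_zero, zero_add,
        ← hc, ← hc', map_add, map_smul, map_neg, ev_mul h2, od_mul h2, ev_ev h2, od_od h2, ev_od,
        od_ev, ev_ι, od_ι h2, zero_mul, add_mul, mul_add, smul_add, smul_smul, smul_mul_assoc,
        mul_smul_comm, mul_assoc, s1, s2, mul_neg, neg_mul, ExteriorAlgebra.ι_sq_zero, ιsq',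
        evι h2, evι' h2, odι, odι' h2, odev h2, odev' h2, od_sq h2, od_sq' h2, neg_neg,
        smul_neg, neg_zero]
      have hN' : ((N + 1 : ℕ) : F) = -3 := by linear_combination hN
      simp only [hN']
      module

end Alg

end Pool.Agent.H739SJ
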