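import Pool.Agent.H739SJ.Defs

/-!
Reduced products of algebras and a criterion for a variety to be not finitely based.
-/

namespace Pool.Agent.H739SJ

universe u

section nat

variable {F : Type u} [Field F]
variable {A : Type*} [NonUnitalNonAssocRing A] [Module F A] [IsScalarTower F A A]
  [SMulCommClass F A A]
variable {B : Type*} [NonUnitalNonAssocRing B] [Module F B] [IsScalarTower F B B]
  [SMulCommClass F B B]

theorem lift_nat (φ : A →ₙₐ[F] B) (v : ℕ → A) (s : FreeNonUnitalNonAssocAlgebra F ℕ) :
    φ (FreeNonUnitalNonAssocAlgebra.lift F v s)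
      = FreeNonUnitalNonAssocAlgebra.lift F (fun i => φ (v i)) s := by
  have h : φ.comp (FreeNonUnitalNonAssocAlgebra.lift F v)
      = FreeNonUnitalNonAssocAlgebra.lift F (fun i => φ (v i)) := by
    apply FreeNonUnitalNonAssocAlgebra.hom_ext
    intro x
    simp
  exact DFunLike.congr_fun h s

end nat

section prod

variable (F : Type u) [Field F] (A : ℕ → Type u) [∀ r, NonUnitalNonAssocRing (A r)]
  [∀ r, Module F (A r)] [∀ r, IsScalarTower F (A r) (A r)] [∀ r, SMulCommClass F (A r) (A r)]

/-- equality up to finitely many coordinates -/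
def evc : RingCon (∀ r, A r) where
  r x y := ∀ᶠ r in Filter.cofinite, x r = y r
  iseqv := ⟨fun _ => Filter.Eventually.of_forall fun _ => rfl,
    fun h => h.mono fun _ => Eq.symm, fun h h' => (h.and h').mono fun _ h => h.1.trans h.2⟩
  add' h h' := (h.and h').mono fun r h => by
    rw [Pi.add_apply, Pi.add_apply, h.1, h.2]
  mul' h h' := (h.and h').mono fun r h => by
    rw [Pi.mul_apply, Pi.mul_apply, h.1, h.2]

/-- the reduced product -/
abbrev RP : Type u := (evc A).Quotient

/-- the projection -/
def prj (x : ∀ r, A r) : RP A := (x : (evc A).Quotient)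

theorem prj_surj : Function.Surjective (prj A) := fun x => Quotient.inductionOn' x fun a => ⟨a, rfl⟩

theorem prj_eq (x y : ∀ r, A r) : prj A x = prj A y ↔ ∀ᶠ r in Filter.cofinite, x r = y r :=
  (evc A).eq

instance : SMul F (RP A) := ⟨fun a => Quotient.map' (a • ·) fun x y h => by
  change ∀ᶠ r in Filter.cofinite, (a • x) r = (a • y) r
  exact Filter.Eventually.mono h fun r h => by
    rw [Pi.smul_apply, Pi.smul_apply, h]⟩

omit [∀ r, IsScalarTower F (A r) (A r)] [∀ r, SMulCommClass F (A r) (A r)] in
theorem prj_smul (a : F) (x : ∀ r, A r) : prj A (a • x) = a • prj A x := rfl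
theorem prj_add (x y : ∀ r, A r) : prj A (x + y) = prj A x + prj A y := rfl
theorem prj_mul (x y : ∀ r, A r) : prj A (x * y) = prj A x * prj A y := rfl
theorem prj_zero : prj A 0 = 0 := rfl

instance : Module F (RP A) where
  one_smul x := by obtain ⟨x, rfl⟩ := prj_surj A x; rw [← prj_smul, one_smul]
  mul_smul a b x := by
    obtain ⟨x, rfl⟩ := prj_surj A x; rw [← prj_smul, ← prj_smul, ← prj_smul, mul_smul]
  smul_zero a := by rw [← prj_zero, ← prj_smul, smul_zero]
  smul_add a x y := by
    obtain ⟨x, rfl⟩ := prj_surj A x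
    obtain ⟨y, rfl⟩ := prj_surj A y
    rw [← prj_smul, ← prj_smul, ← prj_add, ← prj_add, ← prj_smul, smul_add]
  add_smul a b x := by
    obtain ⟨x, rfl⟩ := prj_surj A x
    rw [← prj_smul, ← prj_smul, ← prj_smul, ← prj_add, add_smul]
  zero_smul x := by obtain ⟨x, rfl⟩ := prj_surj A x; rw [← prj_smul, zero_smul, prj_zero]

instance : IsScalarTower F (RP A) (RP A) := ⟨fun a x y => by
  obtain ⟨x, rfl⟩ := prj_surj A x
  obtain ⟨y, rfl⟩ := prj_surj A y
  change (a • prj A x) * prj A y = a • (prj A x * prj A y)
  rw [← prj_smul, ← prj_mul, ← prj_mul, ← prj_smul]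
  congr 1
  funext r
  exact smul_mul_assoc a (x r) (y r)⟩

instance : SMulCommClass F (RP A) (RP A) := ⟨fun a x y => by
  obtain ⟨x, rfl⟩ := prj_surj A x
  obtain ⟨y, rfl⟩ := prj_surj A y
  change a • (prj A x * prj A y) = prj A x * (a • prj A y)
  rw [← prj_smul, ← prj_mul, ← prj_mul, ← prj_smul]
  congr 1
  funext r
  exact (mul_smul_comm a (x r) (y r)).symm⟩

instance : IsScalarTower F (∀ r, A r) (∀ r, A r) := ⟨fun a x y => by
  funext r
  exact smul_mul_assoc a (x r) (y r)⟩

instance : SMulCommClass F (∀ r, A r) (∀ r, A r) := ⟨fun a x y => by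
  funext r
  exact (mul_smul_comm a (x r) (y r)).symm⟩

/-- the projection as an algebra homomorphism -/
def prjHom : (∀ r, A r) →ₙₐ[F] RP A where
  toFun := prj A
  map_smul' := prj_smul F A
  map_zero' := prj_zero A
  map_add' := prj_add A
  map_mul' := prj_mul A

/-- evaluation at a coordinate -/
def evalHom (r : ℕ) : (∀ r, A r) →ₙₐ[F] A r where
  toFun x := x r
  map_smul' _ _ := rfl
  map_zero' := rfl
  map_add' _ _ := rfl
  map_mul' _ _ := rfl

/-- An identity holds in the reduced product as soon as it holds in almost all factors. -/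
theorem RP_sat (s : FreeNonUnitalNonAssocAlgebra F ℕ)
    (h : ∀ᶠ r in Filter.cofinite, Satisfies F (A r) s) : Satisfies F (RP A) s := by
  intro v
  obtain ⟨w, hw⟩ : ∃ w : ℕ → (∀ r, A r), ∀ i, prj A (w i) = v i :=
    ⟨fun i => (prj_surj A (v i)).choose, fun i => (prj_surj A (v i)).choose_spec⟩
  have e : v = fun i => prjHom F A (w i) := funext fun i => (hw i).symm
  rw [e, ← lift_nat (prjHom F A) w s]
  change prj A _ = prj A 0
  rw [prj_eq]
  refine h.mono fun r hr => ?_
  have := lift_nat (evalHom F A r) w s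
  exact this.trans (hr _)

/-- If an identity fails in infinitely many factors, it fails in the reduced product. -/
theorem RP_not_sat (s : FreeNonUnitalNonAssocAlgebra F ℕ)
    (h : {r | ¬ Satisfies F (A r) s}.Infinite) : ¬ Satisfies F (RP A) s := by
  classical
  intro hs
  have hc : ∀ r, ∃ u : ℕ → A r, ¬ Satisfies F (A r) s →
      FreeNonUnitalNonAssocAlgebra.lift F u s ≠ 0 := by
    intro r
    by_cases hr : Satisfies F (A r) s
    · exact ⟨fun _ => 0, fun h => absurd hr h⟩
    · have := hr
      unfold Satisfies at this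
      push Not at this
      obtain ⟨u, hu⟩ := this
      exact ⟨u, fun _ => hu⟩
  choose u hu using hc
  have := hs (fun i => prjHom F A (fun r => u r i))
  rw [← lift_nat (prjHom F A) (fun i r => u r i) s] at this
  change prj A _ = prj A 0 at this
  rw [prj_eq] at this
  refine h (this.subset ?_ )
  intro r hr
  have e := lift_nat (evalHom F A r) (fun i r => u r i) s
  exact fun h0 => hu r hr (e.symm.trans h0)

/-- Criterion: a variety with an infinite strongly independent set of identities is not
finitely based. -/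
theorem not_fb (S : Set (FreeNonUnitalNonAssocAlgebra F ℕ))
    (h1 : ∀ s ∈ S, ∀ᶠ r in Filter.cofinite, Satisfies F (A r) s)
    (h2 : ∀ r, ¬ InVariety F S (A r))
    (T : Set (FreeNonUnitalNonAssocAlgebra F ℕ)) (hT : T.Finite) :
    ¬ ∀ (B : Type u) [NonUnitalNonAssocRing B] [Module F B] [IsScalarTower F B B]
      [SMulCommClass F B B], InVariety F S B ↔ InVariety F T B := by
  intro h
  have hB : InVariety F T (RP A) := (h (RP A)).mp fun s hs => RP_sat F A s (h1 s hs)
  have h3 : ∀ r, ∃ t ∈ T, ¬ Satisfies F (A r) t := by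
    intro r
    have := h2 r
    rw [h (A r)] at this
    unfold InVariety at this
    push Not at this
    exact this
  have : (⋃ t ∈ T, {r | ¬ Satisfies F (A r) t}) = Set.univ := by
    rw [Set.eq_univ_iff_forall]
    intro r
    obtain ⟨t, ht, hr⟩ := h3 r
    exact Set.mem_biUnion ht hr
  have hinf : ∃ t ∈ T, {r | ¬ Satisfies F (A r) t}.Infinite := by
    by_contra hcon
    push Not at hcon
    have := hT.biUnion (fun t ht => hcon t ht)
    rw [‹(⋃ t ∈ T, {r | ¬ Satisfies F (A r) t}) = Set.univ›] at this
    exact Set.infinite_univ this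
  obtain ⟨t, ht, hti⟩ := hinf
  exact RP_not_sat F A t hti (hB t ht)

end prod

end Pool.Agent.H739SJ
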