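import Pool.Agent.H739SJ.Value
import Pool.Agent.H739SJ.Limit

/-!
The main theorem.
-/

namespace Pool.Agent.H739SJ

universe u

section top

variable (F : Type u) [Field F]

/-- the top form on the exterior algebra of `F^n` -/
noncomputable def topf (n : ℕ) : ExteriorAlgebra F (Fin n → F) →ₗ[F] F :=
  ExteriorAlgebra.liftAlternating (fun i =>
    if h : i = n then (Matrix.detRowAlternating (n := Fin n) (R := F)).domDomCongr
      (finCongr h.symm) else 0)

theorem topf_ne {n k : ℕ} (h : k ≠ n) (v : Fin k → (Fin n → F)) :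
    topf F n (ExteriorAlgebra.ιMulti F k v) = 0 := by
  rw [topf, ExteriorAlgebra.liftAlternating_apply_ιMulti, dif_neg h]
  rfl

theorem topf_eq {n : ℕ} (v : Fin n → (Fin n → F)) :
    topf F n (ExteriorAlgebra.ιMulti F n v) = Matrix.det (Matrix.of v) := by
  rw [topf, ExteriorAlgebra.liftAlternating_apply_ιMulti, dif_pos rfl]
  rfl

variable {F} {W : Type u} [AddCommGroup W] [Module F W]

theorem wp_ιMulti (w : ℕ → W) (k : ℕ) :
    wp w k = ExteriorAlgebra.ιMulti F k (fun i : Fin k => w i) := by
  rw [ExteriorAlgebra.ιMulti_apply]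
  induction k with
  | zero => simp [wp]
  | succ k ih =>
    rw [wp, ih, List.ofFn_succ_last]
    simp

theorem wp_add (w : ℕ → W) (a b : ℕ) :
    wp (F := F) w (a + b) = wp w a * wp (fun i => w (a + i)) b := by
  induction b with
  | zero => simp [wp]
  | succ b ih => rw [← add_assoc, wp, ih, wp, mul_assoc]

theorem wp_prod3 (w1 w2 w3 : ℕ → W) (a b c : ℕ) :
    ∃ v : Fin (a + (b + c)) → W, wp (F := F) w1 a * (wp w2 b * wp w3 c)
      = ExteriorAlgebra.ιMulti F (a + (b + c)) v := by
  rw [wp_ιMulti, wp_ιMulti, wp_ιMulti, ExteriorAlgebra.ιMulti_mul_ιMulti,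
    ExteriorAlgebra.ιMulti_mul_ιMulti]
  exact ⟨_, rfl⟩

end top

section values

variable {F : Type u} [Field F] {W : Type u} [AddCommGroup W] [Module F W]
  {τ : ExteriorAlgebra F W →ₗ[F] F} {N : ℕ}

open Alg

theorem DD_gen (p : ℕ) [Fact p.Prime] [CharP F p] (hp : p ≠ 2) (hN : p = N + 3)
    (t : ℕ → Alg τ N) (n : ℕ) (hn : Even n) (x : Alg τ N) (y ζ : ℕ → Alg τ N) :
    DD F t n x y ζ (N + 1) = mk 0 0 (fun _ => 0)
      (2 * τ ((ev x.al) ^ p * (wp (fun i => (y i).c) (N + 4)
        * (wp (fun i => (ζ i).c) (N + 1) * wp (fun i => (t i).c) n)))) := by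
  have hpp : p.Prime := Fact.out
  have h2 : (2 : F) ≠ 0 := by
    intro h
    have : ((2 : ℕ) : F) = 0 := by exact_mod_cast h
    rw [CharP.cast_eq_zero_iff F p] at this
    exact hp ((Nat.prime_dvd_prime_iff_eq hpp Nat.prime_two).mp this)
  have h3 : ((N : F) + 3) = 0 := by
    have := CharP.cast_eq_zero F p
    rw [hN] at this
    exact_mod_cast this
  rw [DD_final h2 t n hn x y ζ]
  have hγ : ∀ i, od (x * y i).al = ev x.al * ExteriorAlgebra.ι F (y i).c
      + ev (y i).al * ExteriorAlgebra.ι F x.c := by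
    intro i
    simp only [al_mul, map_add, od_mul h2, ev_ι, mul_zero, add_zero, od_ι h2]
  obtain ⟨R, -, -, hD⟩ := key (ev x.al) (fun i => ev (y i).al) (fun i => (y i).c) x.c
    (fun z => ev_comm h2 _ z) (fun i z => ev_comm h2 _ z) (fun i => od (x * y i).al) hγ
  have e := hD (N + 2)
  have c1 : (((N + 2 : ℕ) : F) + 2) = 1 := by push_cast; linear_combination h3
  have c2 : (((N + 2 : ℕ) : F) + 1) = 0 := by push_cast; linear_combination h3
  rw [c1, c2, one_smul, zero_smul, add_zero] at e
  rw [show N + 4 = N + 2 + 2 from rfl, e, mul_assoc, show N + 2 + 1 = p from hN.symm]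

theorem DD_zero (p : ℕ) [Fact p.Prime] [CharP F p] (hp : p ≠ 2) (hN : p = N + 3)
    (m n : ℕ) (hn : Even n) (hm : m ≠ (N + 4) + ((N + 1) + n))
    (t : ℕ → Alg (topf F m) N) (x : Alg (topf F m) N)
    (y ζ : ℕ → Alg (topf F m) N) :
    DD F t n x y ζ (N + 1) = 0 := by
  rw [DD_gen p hp hN t n hn x y ζ]
  obtain ⟨s, hs⟩ := frob (F := F) p hp x.al
  obtain ⟨v, hv⟩ := wp_prod3 (F := F) (fun i => (y i).c) (fun i => (ζ i).c) (fun i => (t i).c)
    (N + 4) (N + 1) n
  rw [hs, hv, ← Algebra.smul_def, map_smul, topf_ne F hm.symm, smul_zero, mul_zero]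
  rfl

/-- basis vectors -/
def xi (F : Type u) [Field F] (m i : ℕ) : Fin m → F := fun j => if (j : ℕ) = i then 1 else 0

theorem DD_ne (p : ℕ) [Fact p.Prime] [CharP F p] (hp : p ≠ 2) (hN : p = N + 3)
    (m n : ℕ) (hn : Even n) (hm : m = (N + 4) + ((N + 1) + n)) :
    ∃ (t : ℕ → Alg (topf F m) N) (x : Alg (topf F m) N) (y ζ : ℕ → Alg (topf F m) N),
    DD F t n x y ζ (N + 1) ≠ 0 := by
  have hpp : p.Prime := Fact.out
  have h2 : (2 : F) ≠ 0 := by
    intro h
    have : ((2 : ℕ) : F) = 0 := by exact_mod_cast h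
    rw [CharP.cast_eq_zero_iff F p] at this
    exact hp ((Nat.prime_dvd_prime_iff_eq hpp Nat.prime_two).mp this)
  refine ⟨fun i => mk (xi F m ((N + 4) + ((N + 1) + i))) 0 (fun _ => 0) 0,
    mk 0 1 (fun _ => 0) 0, fun i => mk (xi F m i) 0 (fun _ => 0) 0,
    fun i => mk (xi F m ((N + 4) + i)) 0 (fun _ => 0) 0, ?_⟩
  rw [DD_gen p hp hN _ n hn]
  intro h
  have hz := congrArg Alg.z h
  rw [z_mk, z_zero] at hz
  simp only [c_mk, al_mk] at hz
  have e1 : ev (1 : ExteriorAlgebra F (Fin m → F)) = 1 := by
    have := ev_algebraMap (W := Fin m → F) h2 1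
    simpa using this
  have e2 : wp (F := F) (fun i => xi F m i) (N + 4)
      * (wp (fun i => xi F m ((N + 4) + i)) (N + 1)
        * wp (fun i => xi F m ((N + 4) + ((N + 1) + i))) n) = wp (fun i => xi F m i) m := by
    rw [← wp_add (fun i => xi F m ((N + 4) + i)) (N + 1) n, ← wp_add, ← hm]
  rw [e1, one_pow, one_mul, e2, wp_ιMulti, topf_eq] at hz
  have e3 : Matrix.of (fun i : Fin m => xi F m i) = 1 := by
    ext i j
    rw [Matrix.of_apply, Matrix.one_apply, xi]
    by_cases hij : i = j
    · rw [if_pos hij, if_pos (by rw [hij])]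
    · rw [if_neg hij, if_neg (fun h => hij (Fin.ext h.symm))]
  rw [e3, Matrix.det_one, mul_one] at hz
  exact h2 hz

end values

section final

open FreeNonUnitalNonAssocAlgebra

variable (F : Type u) [Field F]

/-- the variables -/
noncomputable abbrev X (i : ℕ) : FreeNonUnitalNonAssocAlgebra F ℕ :=
  FreeNonUnitalNonAssocAlgebra.of F i

/-- commutativity -/
noncomputable def sComm : FreeNonUnitalNonAssocAlgebra F ℕ := X F 0 * X F 1 - X F 1 * X F 0

/-- Jordan identity -/
noncomputable def sJord : FreeNonUnitalNonAssocAlgebra F ℕ :=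
  ((X F 0 * X F 0) * X F 1) * X F 0 - (X F 0 * X F 0) * (X F 1 * X F 0)

/-- solvability of index three -/
noncomputable def sSolv : FreeNonUnitalNonAssocAlgebra F ℕ :=
  ((X F 0 * X F 1) * (X F 2 * X F 3)) * ((X F 4 * X F 5) * (X F 6 * X F 7))

/-- the infinite series of identities -/
noncomputable def sf (N r : ℕ) : FreeNonUnitalNonAssocAlgebra F ℕ :=
  DD F (fun i => X F (3 * i + 3)) (2 * r) (X F 0) (fun i => X F (3 * i + 1))
    (fun i => X F (3 * i + 2)) (N + 1)

/-- the set of identities -/
def setS (N : ℕ) : Set (FreeNonUnitalNonAssocAlgebra F ℕ) :=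
  {sComm F, sJord F, sSolv F} ∪ Set.range (sf F N)

theorem setS_jordan (N : ℕ) (B : Type u) [NonUnitalNonAssocRing B] [Module F B]
    [IsScalarTower F B B] [SMulCommClass F B B] (h : InVariety F (setS F N) B) :
    IsJordanAlgebra B ∧ derivedSeries F B 3 = ⊥ := by
  have hc : Satisfies F B (sComm F) := h _ (Or.inl (Or.inl rfl))
  have hj : Satisfies F B (sJord F) := h _ (Or.inl (Or.inr (Or.inl rfl)))
  have hs : Satisfies F B (sSolv F) := h _ (Or.inl (Or.inr (Or.inr rfl)))
  refine ⟨⟨fun x y => ?_, fun x y => ?_⟩, ?_⟩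
  · have := hc (fun i => if i = 0 then x else y)
    simp only [sComm, X, map_sub, map_mul, lift_of_apply] at this
    simpa [sub_eq_zero] using this
  · have := hj (fun i => if i = 0 then x else y)
    simp only [sJord, X, map_sub, map_mul, lift_of_apply] at this
    simpa [sub_eq_zero] using this
  · have key : ∀ a b c d e f g k : B, ((a * b) * (c * d)) * ((e * f) * (g * k)) = 0 := by
      intro a b c d e f g k
      have := hs (fun i => if i = 0 then a else if i = 1 then b else if i = 2 then c else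
        if i = 3 then d else if i = 4 then e else if i = 5 then f else if i = 6 then g else k)
      simp only [sSolv, X, map_mul, lift_of_apply] at this
      simpa using this
    -- span arguments
    have gen : ∀ k : ℕ, ∀ P : B → Prop, P 0 → (∀ x y, P x → P y → P (x + y)) →
        (∀ (r : F) x, P x → P (r • x)) →
        (∀ x ∈ derivedSeries F B k, ∀ y ∈ derivedSeries F B k, P (x * y)) →
        ∀ x ∈ derivedSeries F B (k + 1), P x := by
      intro k P h0 ha hs' hm x hx
      rw [derivedSeries] at hx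
      induction hx using Submodule.span_induction with
      | mem x hx => obtain ⟨y, hy, z, hz, rfl⟩ := hx; exact hm y hy z hz
      | zero => exact h0
      | add x y _ _ hx hy => exact ha x y hx hy
      | smul r x _ hx => exact hs' r x hx
    rw [eq_bot_iff]
    intro x hx
    rw [Submodule.mem_bot]
    refine gen 2 (fun x => x = 0) rfl (fun x y hx hy => by rw [hx, hy, add_zero])
      (fun r x hx => by rw [hx, smul_zero]) ?_ x hx
    intro x hx y hy
    -- x in derived 2
    have hA : ∀ x ∈ derivedSeries F B 2, ∀ e f g k : B, x * ((e * f) * (g * k)) = 0 := by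
      intro x hx e f g k
      refine gen 1 (fun x => x * ((e * f) * (g * k)) = 0) (zero_mul _)
        (fun x y hx hy => by rw [add_mul, hx, hy, add_zero])
        (fun r x hx => by rw [smul_mul_assoc, hx, smul_zero]) ?_ x hx
      intro x hx y hy
      refine gen 0 (fun x => (x * y) * ((e * f) * (g * k)) = 0)
        (by rw [zero_mul, zero_mul])
        (fun x y hx hy => by rw [add_mul, add_mul, hx, hy, add_zero])
        (fun r x hx => by rw [smul_mul_assoc, smul_mul_assoc, hx, smul_zero]) ?_ x hx
      intro a _ b _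
      refine gen 0 (fun y => ((a * b) * y) * ((e * f) * (g * k)) = 0)
        (by rw [mul_zero, zero_mul])
        (fun x y hx hy => by rw [mul_add, add_mul, hx, hy, add_zero])
        (fun r x hx => by rw [mul_smul_comm, smul_mul_assoc, hx, smul_zero]) ?_ y hy
      intro c _ d _
      exact key a b c d e f g k
    refine gen 1 (fun y => x * y = 0) (mul_zero _)
      (fun y z hy hz => by rw [mul_add, hy, hz, add_zero])
      (fun r y hy => by rw [mul_smul_comm, hy, smul_zero]) ?_ y hy
    intro y hy z hz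
    refine gen 0 (fun y => x * (y * z) = 0) (by rw [zero_mul, mul_zero])
      (fun y y' hy hz => by rw [add_mul, mul_add, hy, hz, add_zero])
      (fun r y hy => by rw [smul_mul_assoc, mul_smul_comm, hy, smul_zero]) ?_ y hy
    intro a _ b _
    refine gen 0 (fun z => x * ((a * b) * z) = 0) (by rw [mul_zero, mul_zero])
      (fun y y' hy hz => by rw [mul_add, mul_add, hy, hz, add_zero])
      (fun r y hy => by rw [mul_smul_comm, mul_smul_comm, hy, smul_zero]) ?_ z hz
    intro c _ d _
    exact hA x hx a b c d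

theorem sf_eval (N r : ℕ) (B : Type u) [NonUnitalNonAssocRing B] [Module F B]
    [IsScalarTower F B B] [SMulCommClass F B B] (v : ℕ → B) :
    FreeNonUnitalNonAssocAlgebra.lift F v (sf F N r)
      = DD F (fun i => v (3 * i + 3)) (2 * r) (v 0) (fun i => v (3 * i + 1))
        (fun i => v (3 * i + 2)) (N + 1) := by
  rw [sf, map_DD]
  simp only [X, lift_of_apply]

/-- the algebras -/
abbrev AA (N r : ℕ) : Type u := Alg (topf F ((N + 4) + ((N + 1) + 2 * r))) N

theorem main (p : ℕ) [Fact p.Prime] [CharP F p] (hp : p ≠ 2) :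
    ∃ S : Set (FreeNonUnitalNonAssocAlgebra F ℕ),
      (∀ (B : Type u) [NonUnitalNonAssocRing B] [Module F B] [IsScalarTower F B B]
        [SMulCommClass F B B], InVariety F S B →
          IsJordanAlgebra B ∧ derivedSeries F B 3 = ⊥) ∧
      ∀ T : Set (FreeNonUnitalNonAssocAlgebra F ℕ), T.Finite →
        ¬ ∀ (B : Type u) [NonUnitalNonAssocRing B] [Module F B] [IsScalarTower F B B]
          [SMulCommClass F B B], InVariety F S B ↔ InVariety F T B := by
  have hpp : p.Prime := Fact.out
  have h2 : (2 : F) ≠ 0 := by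
    intro h
    have : ((2 : ℕ) : F) = 0 := by exact_mod_cast h
    rw [CharP.cast_eq_zero_iff F p] at this
    exact hp ((Nat.prime_dvd_prime_iff_eq hpp Nat.prime_two).mp this)
  obtain ⟨N, hN⟩ : ∃ N, p = N + 3 := by
    have := hpp.two_le
    exact ⟨p - 3, by omega⟩
  have h3 : ((N : F) + 3) = 0 := by
    have := CharP.cast_eq_zero F p
    rw [hN] at this
    exact_mod_cast this
  refine ⟨setS F N, fun B _ _ _ _ h => setS_jordan F N B h, ?_⟩
  intro T hT
  refine not_fb F (AA F N) (setS F N) ?_ ?_ T hT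
  · intro s hs
    rcases hs with (rfl | rfl | rfl) | ⟨q, rfl⟩
    · refine Filter.Eventually.of_forall fun r v => ?_
      simp only [sComm, X, map_sub, map_mul, lift_of_apply]
      rw [Alg.comm, sub_self]
    · refine Filter.Eventually.of_forall fun r v => ?_
      simp only [sJord, X, map_sub, map_mul, lift_of_apply]
      rw [Alg.jordan h2 h3, sub_self]
    · refine Filter.Eventually.of_forall fun r v => ?_
      simp only [sSolv, X, map_mul, lift_of_apply]
      have hc : ∀ a b : AA F N r, (a * b).c = 0 := fun a b => Alg.c_mul a b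
      have hal : ∀ a b c d : AA F N r, ((a * b) * (c * d)).al = 0 := by
        intro a b c d
        rw [Alg.al_mul, hc, hc, map_zero, mul_zero, mul_zero, add_zero]
      refine Alg.ext (hc _ _) ?_ (fun k => ?_) ?_
      · rw [Alg.al_mul, hc, hc, map_zero, mul_zero, mul_zero, add_zero]; rfl
      · rw [Alg.de_mul]
        rcases k with _ | k
        · simp only [Alg.hde, hc, hal, map_zero, mul_zero, smul_zero, add_zero]; rfl
        · simp only [Alg.hde, hc, hal, map_zero, mul_zero, zero_mul, smul_zero, add_zero]; rfl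
      · rw [Alg.z_mul, hal, hal, map_zero, zero_mul, zero_mul, map_zero, add_zero]; rfl
    · have hsub : {r | ¬ Satisfies F (AA F N r) (sf F N q)} ⊆ {q} := by
        intro r hr
        by_contra hne
        apply hr
        intro v
        rw [sf_eval]
        refine DD_zero p hp hN _ _ (even_two_mul q) ?_ _ _ _ _
        intro h
        apply hne
        have : r = q := by omega
        exact this
      exact (Set.finite_singleton q).subset hsub
  · intro r h
    have hr : Satisfies F (AA F N r) (sf F N r) := h _ (Or.inr ⟨r, rfl⟩)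
    obtain ⟨t, x, y, ζ, hne⟩ := DD_ne (F := F) p hp hN _ (2 * r) (even_two_mul r) rfl
    apply hne
    have := hr (fun i => if i = 0 then x else if i % 3 = 1 then y (i / 3) else
      if i % 3 = 2 then ζ (i / 3) else t (i / 3 - 1))
    rw [sf_eval] at this
    have e1 : ∀ i, (3 * i + 1) % 3 = 1 ∧ (3 * i + 1) / 3 = i ∧ 3 * i + 1 ≠ 0 := by
      intro i; omega
    have e2 : ∀ i, (3 * i + 2) % 3 = 2 ∧ (3 * i + 2) / 3 = i ∧ 3 * i + 2 ≠ 0 := by
      intro i; omega
    have e3 : ∀ i, (3 * i + 3) % 3 = 0 ∧ (3 * i + 3) / 3 - 1 = i ∧ 3 * i + 3 ≠ 0 := by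
      intro i; omega
    simp only [e1, e2, e3, if_true, if_false] at this
    simpa using this

end final

end Pool.Agent.H739SJ
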