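import Pool.Agent.H739SJ.Jordan

/-!
The polynomials `DD` and their values in `Alg τ N`.
-/

namespace Pool.Agent.H739SJ

universe u v

section polys

variable (F : Type u) [Field F] {A : Type v} [NonUnitalNonAssocRing A] [Module F A]

/-- `((s t₀) t₁) ⋯ t_{n-1}` -/
def fill (t : ℕ → A) (s : A) : ℕ → A
  | 0 => s
  | n + 1 => fill t s n * t n

/-- the basic skew-symmetrised product -/
def start (t : ℕ → A) (n : ℕ) (x y₁ y' y₂ : A) : A :=
  fill t ((x * y₁) * y') n * (x * y₂) - fill t ((x * y₂) * y') n * (x * y₁)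

/-- auxiliary polynomials -/
def PP (t : ℕ → A) (n : ℕ) (x : A) (y ζ : ℕ → A) : ℕ → A
  | 0 => start t n x (y 1) (ζ 0) (y 0)
  | j + 1 => (-1 : F) ^ j • ((PP t n x y ζ j * ζ (j + 1)) * (x * y (j + 2)))

/-- the identities -/
def DD (t : ℕ → A) (n : ℕ) (x : A) (y ζ : ℕ → A) : ℕ → A
  | 0 => start t n x (y 0) (y 1) (y 2) + start t n x (y 1) (y 2) (y 0)
      + start t n x (y 2) (y 0) (y 1)
  | j + 1 => (-1 : F) ^ (j + 1) • ((DD t n x y ζ j * ζ j) * (x * y (j + 3)))
      - (PP F t n x y ζ j * y (j + 3)) * (x * y (j + 2))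

end polys

section hom

variable {F : Type u} [Field F] {A : Type v} [NonUnitalNonAssocRing A] [Module F A]
  {B : Type*} [NonUnitalNonAssocRing B] [Module F B]

theorem map_fill (φ : A →ₙₐ[F] B) (t : ℕ → A) (s : A) (n : ℕ) :
    φ (fill t s n) = fill (fun i => φ (t i)) (φ s) n := by
  induction n with
  | zero => rfl
  | succ n ih => simp only [fill, map_mul, ih]

theorem map_start (φ : A →ₙₐ[F] B) (t : ℕ → A) (n : ℕ) (x y₁ y' y₂ : A) :
    φ (start t n x y₁ y' y₂) = start (fun i => φ (t i)) n (φ x) (φ y₁) (φ y') (φ y₂) := by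
  simp only [start, map_sub, map_mul, map_fill]

theorem map_PP (φ : A →ₙₐ[F] B) (t : ℕ → A) (n : ℕ) (x : A) (y ζ : ℕ → A) (j : ℕ) :
    φ (PP F t n x y ζ j)
      = PP F (fun i => φ (t i)) n (φ x) (fun i => φ (y i)) (fun i => φ (ζ i)) j := by
  induction j with
  | zero => simp only [PP, map_start]
  | succ j ih => simp only [PP, map_smul, map_mul, ih]

theorem map_DD (φ : A →ₙₐ[F] B) (t : ℕ → A) (n : ℕ) (x : A) (y ζ : ℕ → A) (j : ℕ) :
    φ (DD F t n x y ζ j)
      = DD F (fun i => φ (t i)) n (φ x) (fun i => φ (y i)) (fun i => φ (ζ i)) j := by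
  induction j with
  | zero => simp only [DD, map_add, map_start]
  | succ j ih => simp only [DD, map_sub, map_smul, map_mul, map_PP, ih]

end hom

section Elevel

variable {F : Type u} [Field F] {W : Type u} [AddCommGroup W] [Module F W]

/-- product of the vectors `w 0, …, w (k-1)` in the exterior algebra -/
noncomputable def wp (w : ℕ → W) : ℕ → ExteriorAlgebra F W
  | 0 => 1
  | k + 1 => wp w k * ExteriorAlgebra.ι F (w k)

/-- `γ₀ ⋯ γ_{k-1}` -/
noncomputable def Pz (γ : ℕ → ExteriorAlgebra F W) : ℕ → ExteriorAlgebra F W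
  | 0 => 1
  | k + 1 => Pz γ k * γ k

/-- `∑ γ₀ ⋯ η_j ⋯ γ_{k-1}` -/
noncomputable def Dz (γ : ℕ → ExteriorAlgebra F W) (η : ℕ → W) : ℕ → ExteriorAlgebra F W
  | 0 => 0
  | k + 1 => Dz γ η k * γ k + Pz γ k * ExteriorAlgebra.ι F (η k)

theorem sg_wp (w : ℕ → W) (k : ℕ) : sg (wp (F := F) w k) = (-1 : F) ^ k • wp w k := by
  induction k with
  | zero => simp [wp]
  | succ k ih =>
    simp only [wp, map_mul, ih, sg_ι, pow_succ]
    simp

theorem sg_Pz (γ : ℕ → ExteriorAlgebra F W) (hγ : ∀ i, sg (γ i) = -γ i) (k : ℕ) :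
    sg (Pz γ k) = (-1 : F) ^ k • Pz γ k := by
  induction k with
  | zero => simp [Pz]
  | succ k ih =>
    simp only [Pz, map_mul, ih, hγ, pow_succ]
    simp

theorem sg_Dz (γ : ℕ → ExteriorAlgebra F W) (η : ℕ → W) (hγ : ∀ i, sg (γ i) = -γ i) (k : ℕ) :
    sg (Dz γ η k) = (-1 : F) ^ k • Dz γ η k := by
  induction k with
  | zero => simp [Dz]
  | succ k ih =>
    simp only [Dz, map_add, map_mul, ih, hγ, pow_succ, sg_Pz γ hγ, sg_ι]
    simp [smul_add]

/-- an odd element passes to the left by applying the parity automorphism -/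
theorem mul_odd (h2 : (2 : F) ≠ 0) (x y : ExteriorAlgebra F W) (hy : sg y = -y) :
    x * y = y * sg x := by
  have h := super_comm h2 x y
  have e1 : ev y = 0 := by rw [ev_apply, hy, add_neg_cancel, smul_zero]
  have e2 : od y = y := by have := ev_add_od h2 y; rwa [e1, zero_add] at this
  rwa [e1, e2, zero_mul, zero_add] at h

/-- the key computation: with `γ i = a ηᵢ + βᵢ c` -/
theorem key (a : ExteriorAlgebra F W) (β : ℕ → ExteriorAlgebra F W) (η : ℕ → W) (c : W)
    (ha : ∀ x, a * x = x * a) (hβ : ∀ i x, β i * x = x * β i)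
    (γ : ℕ → ExteriorAlgebra F W)
    (hγ : ∀ i, γ i = a * ExteriorAlgebra.ι F (η i) + β i * ExteriorAlgebra.ι F c) :
    ∃ R : ℕ → ExteriorAlgebra F W, (∀ k, R k * ExteriorAlgebra.ι F c = 0) ∧
      (∀ k, Pz γ (k + 1) = a ^ (k + 1) * wp η (k + 1) + a ^ k * R (k + 1)) ∧
      (∀ k, Dz γ η (k + 2) = (k + 2 : F) • (a ^ (k + 1) * wp η (k + 2))
        + (k + 1 : F) • (a ^ k * R (k + 2))) := by
  -- R (k+1) = R k * η k + β k * Q k * c
  obtain ⟨R, R0, Rs⟩ : ∃ R : ℕ → ExteriorAlgebra F W, R 0 = 0 ∧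
      ∀ k, R (k + 1) = R k * ExteriorAlgebra.ι F (η k)
        + β k * (wp η k * ExteriorAlgebra.ι F c) :=
    ⟨fun k => Nat.rec 0 (fun k r => r * ExteriorAlgebra.ι F (η k)
      + β k * (wp η k * ExteriorAlgebra.ι F c)) k, rfl, fun k => rfl⟩
  have hR : ∀ k, R k * ExteriorAlgebra.ι F c = 0 := by
    intro k
    induction k with
    | zero => rw [R0, zero_mul]
    | succ k ih =>
      rw [Rs, add_mul, mul_assoc, ι_swap, mul_neg, ← mul_assoc, ih, zero_mul, neg_zero, zero_add,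
        mul_assoc, mul_assoc, ExteriorAlgebra.ι_sq_zero, mul_zero, mul_zero]
  have e0 : ∀ k j, R k * (β j * ExteriorAlgebra.ι F c) = 0 := by
    intro k j
    rw [← mul_assoc, ← hβ, mul_assoc, hR, mul_zero]
  have hP : ∀ k, Pz γ (k + 1) = a ^ (k + 1) * wp η (k + 1) + a ^ k * R (k + 1) := by
    intro k
    induction k with
    | zero =>
      simp only [Pz, wp, Rs, R0, hγ, one_mul, zero_mul, zero_add, pow_one, pow_zero]
    | succ k ih =>
      rw [Pz, ih, hγ (k + 1), Rs (k + 1)]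
      have e1 : a ^ k * R (k + 1) * (β (k + 1) * ExteriorAlgebra.ι F c) = 0 := by
        rw [mul_assoc, e0, mul_zero]
      have e2 : a ^ (k + 1) * wp η (k + 1) * (a * ExteriorAlgebra.ι F (η (k + 1)))
          = a ^ (k + 1 + 1) * wp η (k + 1 + 1) := by
        rw [← mul_assoc, mul_assoc (a ^ (k + 1)), ← ha, ← mul_assoc, ← pow_succ, mul_assoc]
        rfl
      have e3 : a ^ k * R (k + 1) * (a * ExteriorAlgebra.ι F (η (k + 1)))
          = a ^ (k + 1) * (R (k + 1) * ExteriorAlgebra.ι F (η (k + 1))) := by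
        rw [← mul_assoc, mul_assoc (a ^ k), ← ha, ← mul_assoc, ← pow_succ, mul_assoc]
      have e4 : a ^ (k + 1) * wp η (k + 1) * (β (k + 1) * ExteriorAlgebra.ι F c)
          = a ^ (k + 1) * (β (k + 1) * (wp η (k + 1) * ExteriorAlgebra.ι F c)) := by
        rw [← mul_assoc, mul_assoc (a ^ (k + 1)), ← hβ, mul_assoc, mul_assoc]
      rw [mul_add, add_mul, add_mul, e1, e2, e3, e4, mul_add]
      abel
  refine ⟨R, hR, hP, ?_⟩
  intro k
  induction k with
  | zero =>
    simp only [Dz, Pz, wp, Rs, R0, hγ, one_mul, zero_mul, zero_add, pow_one, pow_zero,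
      Nat.cast_zero, one_smul, add_mul, mul_assoc]
    have e1 : ExteriorAlgebra.ι F (η 0) * (a * ExteriorAlgebra.ι F (η 1))
        = a * (ExteriorAlgebra.ι F (η 0) * ExteriorAlgebra.ι F (η 1)) := by
      rw [← mul_assoc, ← ha, mul_assoc]
    have e2 : ExteriorAlgebra.ι F (η 0) * (β 1 * ExteriorAlgebra.ι F c)
        = β 1 * (ExteriorAlgebra.ι F (η 0) * ExteriorAlgebra.ι F c) := by
      rw [← mul_assoc, ← hβ, mul_assoc]
    rw [mul_add, e1, e2, two_smul]
    abel
  | succ k ih =>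
    rw [Dz, ih, hP (k + 1), hγ (k + 2), Rs (k + 2)]
    have e1 : a ^ k * R (k + 2) * (β (k + 2) * ExteriorAlgebra.ι F c) = 0 := by
      rw [mul_assoc, e0, mul_zero]
    have e2 : a ^ (k + 1) * wp η (k + 2) * (a * ExteriorAlgebra.ι F (η (k + 2)))
        = a ^ (k + 2) * wp η (k + 3) := by
      rw [← mul_assoc, mul_assoc (a ^ (k + 1)), ← ha, ← mul_assoc, ← pow_succ, mul_assoc]
      rfl
    have e3 : a ^ k * R (k + 2) * (a * ExteriorAlgebra.ι F (η (k + 2)))
        = a ^ (k + 1) * (R (k + 2) * ExteriorAlgebra.ι F (η (k + 2))) := by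
      rw [← mul_assoc, mul_assoc (a ^ k), ← ha, ← mul_assoc, ← pow_succ, mul_assoc]
    have e4 : a ^ (k + 1) * wp η (k + 2) * (β (k + 2) * ExteriorAlgebra.ι F c)
        = a ^ (k + 1) * (β (k + 2) * (wp η (k + 2) * ExteriorAlgebra.ι F c)) := by
      rw [← mul_assoc, mul_assoc (a ^ (k + 1)), ← hβ, mul_assoc, mul_assoc]
    have e5 : a ^ (k + 2) * wp η (k + 2) * ExteriorAlgebra.ι F (η (k + 2))
        = a ^ (k + 2) * wp η (k + 3) := by
      rw [mul_assoc]; rfl
    have e6 : a ^ (k + 1) * R (k + 2) * ExteriorAlgebra.ι F (η (k + 2))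
        = a ^ (k + 1) * (R (k + 2) * ExteriorAlgebra.ι F (η (k + 2))) := by
      rw [mul_assoc]
    simp only [mul_add, add_mul, smul_mul_assoc, e1, e2, e3, e4]
    rw [show k + 1 + 1 = k + 2 from rfl, e5, e6]
    push_cast
    module

end Elevel

end Pool.Agent.H739SJ
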