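import Pool.Agent.H739SJ.Poly

/-!
Values of `PP`, `DD` in `Alg τ N`.
-/

namespace Pool.Agent.H739SJ

universe u

variable {F : Type u} [Field F] {W : Type u} [AddCommGroup W] [Module F W]

section Estep

theorem odd_left (h2 : (2 : F) ≠ 0) (g A B : ExteriorAlgebra F W) (a : ℕ)
    (hg : sg g = -g) (hA : sg A = (-1 : F) ^ a • A) :
    g * (A * B) = (-1 : F) ^ a • (A * g * B) := by
  have h := mul_odd h2 A g hg
  rw [hA, mul_smul_comm] at h
  rw [h, smul_mul_assoc, smul_smul, ← mul_pow, neg_one_mul, neg_neg, one_pow, one_smul, mul_assoc]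

variable (h2 : (2 : F) ≠ 0) (γ : ℕ → ExteriorAlgebra F W) (hγ : ∀ i, sg (γ i) = -γ i)
  (η zc : ℕ → W) (Θ : ExteriorAlgebra F W) (hΘ : sg Θ = Θ)
include h2 hγ hΘ

omit h2 hγ in
theorem Θι (w : W) : Θ * ExteriorAlgebra.ι F w = ExteriorAlgebra.ι F w * Θ := by
  rw [mul_ι_comm, hΘ]

theorem stepP (j : ℕ) : γ (j + 2) * ((2 : F) • (Pz γ (j + 2) * (wp zc (j + 1) * Θ))
      * ExteriorAlgebra.ι F (zc (j + 1)))
    = (-1 : F) ^ j • (2 : F) • (Pz γ (j + 3) * (wp zc (j + 2) * Θ)) := by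
  have e : (2 : F) • (Pz γ (j + 2) * (wp zc (j + 1) * Θ)) * ExteriorAlgebra.ι F (zc (j + 1))
      = (2 : F) • (Pz γ (j + 2) * (wp zc (j + 2) * Θ)) := by
    rw [smul_mul_assoc, mul_assoc, mul_assoc, Θι Θ hΘ, ← mul_assoc (wp zc (j + 1))]
    rfl
  rw [e, mul_smul_comm, odd_left h2 _ _ _ (j + 2) (hγ _) (sg_Pz γ hγ _)]
  rw [smul_comm, pow_add, neg_one_sq, mul_one]
  rfl

theorem stepD1 (j : ℕ) : γ (j + 3) * ((2 : F) • (Dz γ η (j + 3) * (wp zc j * Θ))
      * ExteriorAlgebra.ι F (zc j))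
    = (-1 : F) ^ (j + 1) • (2 : F) • (Dz γ η (j + 3) * γ (j + 3) * (wp zc (j + 1) * Θ)) := by
  have e : (2 : F) • (Dz γ η (j + 3) * (wp zc j * Θ)) * ExteriorAlgebra.ι F (zc j)
      = (2 : F) • (Dz γ η (j + 3) * (wp zc (j + 1) * Θ)) := by
    rw [smul_mul_assoc, mul_assoc, mul_assoc, Θι Θ hΘ, ← mul_assoc (wp zc j)]
    rfl
  rw [e, mul_smul_comm, odd_left h2 _ _ _ (j + 3) (hγ _) (sg_Dz γ η hγ _)]
  rw [smul_comm, show j + 3 = (j + 1) + 2 from rfl, pow_add _ (j + 1) 2, neg_one_sq, mul_one]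

theorem stepD2 (j : ℕ) : γ (j + 2) * ((2 : F) • (Pz γ (j + 2) * (wp zc (j + 1) * Θ))
      * ExteriorAlgebra.ι F (η (j + 3)))
    = -((2 : F) • (Pz γ (j + 3) * ExteriorAlgebra.ι F (η (j + 3)) * (wp zc (j + 1) * Θ))) := by
  have e : (2 : F) • (Pz γ (j + 2) * (wp zc (j + 1) * Θ)) * ExteriorAlgebra.ι F (η (j + 3))
      = (2 : F) • (-1 : F) ^ (j + 1) •
        (Pz γ (j + 2) * (ExteriorAlgebra.ι F (η (j + 3)) * (wp zc (j + 1) * Θ))) := by
    rw [smul_mul_assoc, mul_assoc, mul_ι_comm (wp zc (j + 1) * Θ), map_mul, sg_wp, hΘ,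
      smul_mul_assoc, mul_smul_comm, mul_smul_comm]
  rw [e, mul_smul_comm, mul_smul_comm, odd_left h2 _ _ _ (j + 2) (hγ _) (sg_Pz γ hγ _)]
  rw [smul_smul ((-1 : F) ^ (j + 1)), ← pow_add, show j + 1 + (j + 2) = 2 * (j + 1) + 1 by ring,
    pow_add, pow_mul, neg_one_sq, one_pow, one_mul, pow_one, neg_one_smul, smul_neg, ← mul_assoc]
  rfl

end Estep

namespace Alg

variable {τ : ExteriorAlgebra F W →ₗ[F] F} {N : ℕ}

theorem fill_c (t : ℕ → Alg τ N) (s : Alg τ N) (hs : s.c = 0) (n : ℕ) :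
    (fill t s n).c = 0 ∧ (fill t s n).al = s.al * wp (fun i => (t i).c) n := by
  induction n with
  | zero => exact ⟨hs, by simp [fill, wp]⟩
  | succ n ih =>
    refine ⟨by simp [fill], ?_⟩
    rw [fill, al_mul, ih.1, ih.2, map_zero, mul_zero, add_zero, mul_assoc]
    rfl

/-- `S` lies in `⊕ M_k` (odd parts) `⊕ Z` -/
structure OddN (S : Alg τ N) : Prop where
  c : S.c = 0
  al : S.al = 0
  ev : ∀ k, ev (S.de k) = 0

theorem OddN.add {S T : Alg τ N} (h : OddN S) (h' : OddN T) : OddN (S + T) :=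
  ⟨by simp [h.c, h'.c], by simp [h.al, h'.al], fun k => by simp [h.ev, h'.ev]⟩

theorem OddN.sub {S T : Alg τ N} (h : OddN S) (h' : OddN T) : OddN (S - T) :=
  ⟨by simp [h.c, h'.c], by simp [h.al, h'.al], fun k => by simp [h.ev, h'.ev]⟩

theorem OddN.smul {S : Alg τ N} (r : F) (h : OddN S) : OddN (r • S) :=
  ⟨by simp [h.c], by simp [h.al], fun k => by simp [h.ev]⟩

theorem start_val (h2 : (2 : F) ≠ 0) (t : ℕ → Alg τ N) (n : ℕ) (hn : Even n)
    (x y₁ y' y₂ : Alg τ N) :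
    OddN (start t n x y₁ y' y₂) ∧ (start t n x y₁ y' y₂).de 0
      = (2 : F) • (od (x * y₁).al * (ExteriorAlgebra.ι F y'.c * wp (fun i => (t i).c) n)
          * od (x * y₂).al) := by
  set H := ExteriorAlgebra.ι F y'.c * wp (fun i => (t i).c) n with hH
  have sH : sg H = -H := by
    rw [hH, map_mul, sg_ι, sg_wp, hn.neg_one_pow, one_smul, neg_mul]
  have eH : ev H = 0 := by rw [ev_apply, sH, add_neg_cancel, smul_zero]
  have oH : od H = H := by have := ev_add_od h2 H; rwa [eH, zero_add] at this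
  have hP : ∀ y : Alg τ N, (fill t ((x * y) * y') n).c = 0 ∧
      (fill t ((x * y) * y') n).al = (x * y).al * H := by
    intro y
    have := fill_c t ((x * y) * y') (c_mul _ _) n
    refine ⟨this.1, ?_⟩
    rw [this.2, al_mul (x * y), c_mul, map_zero, mul_zero, add_zero, mul_assoc]
  have hev : ∀ y, ev (fill t ((x * y) * y') n).al = od (x * y).al * H := by
    intro y; rw [(hP y).2, ev_mul h2, eH, oH, mul_zero, zero_add]
  have hod : ∀ y, od (fill t ((x * y) * y') n).al = ev (x * y).al * H := by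
    intro y; rw [(hP y).2, od_mul h2, eH, oH, mul_zero, add_zero]
  refine ⟨⟨?_, ?_, fun k => ?_⟩, ?_⟩
  · simp [start]
  · simp only [start, al_sub, al_mul, (hP _).1, c_mul, map_zero, mul_zero, add_zero, sub_zero]
  · rcases k with _ | k
    · simp only [start, de_sub, de_mul, hde, (hP _).1, c_mul, map_zero, mul_zero, add_zero,
        zero_add, smul_zero, hev, hod, map_sub, map_add, ev_mul h2, ev_od, od_ev, zero_mul, eH,
        oH, od_mul h2, od_od h2, ev_ev h2]
      simp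
    · have z0 : ∀ a b : ExteriorAlgebra F W, ev (od a * ev b) = 0 := by
        intro a b; rw [ev_mul h2, ev_od, od_ev, zero_mul, mul_zero, add_zero]
      have hPQ : ∀ P Q : Alg τ N, P.c = 0 → Q.c = 0 → ev ((P * Q).de (k + 1)) = 0 := by
        intro P Q hP hQ
        rw [de_mul]
        simp only [hde, hP, hQ, map_zero, mul_zero, smul_zero, zero_add, map_add, map_smul, z0,
          add_zero]
      rw [start, de_sub, map_sub, hPQ _ _ (hP _).1 (c_mul _ _), hPQ _ _ (hP _).1 (c_mul _ _),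
        sub_zero]
  · simp only [start, de_sub, de_mul, hde, (hP _).1, c_mul, map_zero, mul_zero, add_zero,
      zero_add, smul_zero, hev, hod]
    -- γ₁ H γ₂ + ev g₂ * (ev g₁ * H) - (γ₂ H γ₁ + ev g₁ * (ev g₂ * H))
    have e1 : ev (x * y₂).al * (ev (x * y₁).al * H) = ev (x * y₁).al * (ev (x * y₂).al * H) :=
      evev' h2 _ _ _
    have sγ : ∀ y : Alg τ N, sg (od (x * y).al) = -od (x * y).al := fun y => sg_od _
    have e2 : od (x * y₂).al * H * od (x * y₁).al = -(od (x * y₁).al * H * od (x * y₂).al) := by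
      have a1 : od (x * y₂).al * H * od (x * y₁).al = od (x * y₁).al * (od (x * y₂).al * H) := by
        rw [mul_odd h2 _ _ (sγ y₁), map_mul, sγ, sH, neg_mul_neg]
      have a2 : od (x * y₂).al * H = -(H * od (x * y₂).al) := by
        rw [mul_odd h2 _ _ sH, sγ, mul_neg]
      rw [a1, a2, mul_neg, ← mul_assoc]
    rw [e1, e2]
    module

theorem step_val (h2 : (2 : F) ≠ 0) (S Z Q : Alg τ N) (hS : OddN S) (hQ : Q.c = 0) :
    OddN ((S * Z) * Q) ∧ ((S * Z) * Q).de 0 = 0 ∧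
    (∀ k, ((S * Z) * Q).de (k + 1)
      = kap F N k • (od Q.al * (S.de k * ExteriorAlgebra.ι F Z.c))) ∧
    ((S * Z) * Q).z = τ (od Q.al * (S.de N * ExteriorAlgebra.ι F Z.c)) := by
  have oS : ∀ k, od (S.de k) = S.de k := fun k => by
    have := ev_add_od h2 (S.de k); rwa [hS.ev, zero_add] at this
  have hde' : ∀ k, (S * Z).de k = S.de k * ExteriorAlgebra.ι F Z.c := by
    intro k
    rcases k with _ | k
    · simp only [de_mul, hde, hS.c, hS.al, hS.ev, oS, map_zero, mul_zero, zero_mul, add_zero,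
        smul_zero]
    · simp only [de_mul, hde, hS.c, hS.al, hS.ev, oS, map_zero, mul_zero, zero_mul, add_zero,
        smul_zero]
  have hal' : (S * Z).al = 0 := by
    rw [al_mul, hS.c, hS.al, map_zero, mul_zero, zero_mul, add_zero]
  have hev' : ∀ k, ev ((S * Z).de k) = S.de k * ExteriorAlgebra.ι F Z.c := by
    intro k
    rw [hde', ev_mul h2, hS.ev, oS, od_ι h2, zero_mul, zero_add]
  have d0 : ((S * Z) * Q).de 0 = 0 := by
    simp only [de_mul _ Q, hde, c_mul, hQ, hal', map_zero, mul_zero, zero_mul, add_zero, smul_zero]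
  have d1 : ∀ k, ((S * Z) * Q).de (k + 1)
      = kap F N k • (od Q.al * (S.de k * ExteriorAlgebra.ι F Z.c)) := by
    intro k
    simp only [de_mul _ Q, hde, c_mul, hQ, hal', hev', map_zero, mul_zero, zero_mul, add_zero,
      smul_zero, zero_add]
  refine ⟨⟨c_mul _ _, ?_, fun k => ?_⟩, d0, d1, ?_⟩
  · rw [al_mul, hal', hQ, c_mul, map_zero, mul_zero, mul_zero, add_zero]
  · rcases k with _ | k
    · rw [d0, map_zero]
    · rw [d1, map_smul, ev_mul h2, ev_od, zero_mul, zero_add, od_mul h2 (S.de k), hS.ev, zero_mul,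
        zero_add, ev_ι, mul_zero, mul_zero, smul_zero]
  · rw [z_mul, hal', map_zero, zero_mul, map_zero, zero_add, hev']

section main

variable (h2 : (2 : F) ≠ 0) (t : ℕ → Alg τ N) (n : ℕ) (hn : Even n) (x : Alg τ N)
  (y ζ : ℕ → Alg τ N)
include h2 hn

theorem PP_val (j : ℕ) : OddN (PP F t n x y ζ j) ∧ (∀ k < j, (PP F t n x y ζ j).de k = 0) ∧
    (j ≤ N → (PP F t n x y ζ j).de j = (2 : F) • (Pz (fun i => od (x * y i).al) (j + 2)
      * (wp (fun i => (ζ i).c) (j + 1) * wp (fun i => (t i).c) n))) := by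
  have hγ : ∀ i, sg (od (x * y i).al) = -od (x * y i).al := fun i => sg_od _
  have hΘ : sg (wp (F := F) (fun i => (t i).c) n) = wp (fun i => (t i).c) n := by
    rw [sg_wp, hn.neg_one_pow, one_smul]
  induction j with
  | zero =>
    have := start_val h2 t n hn x (y 1) (ζ 0) (y 0)
    refine ⟨this.1, fun k hk => absurd hk (Nat.not_lt_zero k), fun _ => ?_⟩
    rw [PP, this.2]
    congr 1
    simp only [Pz, wp, one_mul]
    set Θ := wp (F := F) (fun i => (t i).c) n
    -- γ1 (ι Θ) γ0 = γ0 γ1 (ι Θ)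
    rw [mul_odd h2 _ _ (hγ 0), map_mul, hγ 1, map_mul, sg_ι, hΘ]
    simp only [neg_mul, mul_neg, neg_neg, mul_assoc]
  | succ j ih =>
    obtain ⟨o, l, v⟩ := ih
    have st := step_val h2 (PP F t n x y ζ j) (ζ (j + 1)) (x * y (j + 2)) o (c_mul _ _)
    refine ⟨st.1.smul _, fun k hk => ?_, fun hj => ?_⟩
    · rw [PP, de_smul]
      rcases k with _ | k
      · rw [st.2.1, smul_zero]
      · rw [st.2.2.1, l k (by omega), zero_mul, mul_zero, smul_zero, smul_zero]
    · rw [PP, de_smul, st.2.2.1, v (by omega), kap, if_pos (by omega), one_smul]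
      have := stepP h2 (fun i => od (x * y i).al) hγ (fun i => (ζ i).c) _ hΘ j
      rw [this, smul_smul ((-1 : F) ^ j), ← mul_pow, neg_one_mul, neg_neg, one_pow, one_smul]

theorem DD_val (j : ℕ) : OddN (DD F t n x y ζ j) ∧ (∀ k < j, (DD F t n x y ζ j).de k = 0) ∧
    (j ≤ N → (DD F t n x y ζ j).de j
      = (2 : F) • (Dz (fun i => od (x * y i).al) (fun i => (y i).c) (j + 3)
        * (wp (fun i => (ζ i).c) j * wp (fun i => (t i).c) n))) := by
  have hγ : ∀ i, sg (od (x * y i).al) = -od (x * y i).al := fun i => sg_od _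
  have hΘ : sg (wp (F := F) (fun i => (t i).c) n) = wp (fun i => (t i).c) n := by
    rw [sg_wp, hn.neg_one_pow, one_smul]
  induction j with
  | zero =>
    have s1 := start_val h2 t n hn x (y 0) (y 1) (y 2)
    have s2 := start_val h2 t n hn x (y 1) (y 2) (y 0)
    have s3 := start_val h2 t n hn x (y 2) (y 0) (y 1)
    refine ⟨(s1.1.add s2.1).add s3.1, fun k hk => absurd hk (Nat.not_lt_zero k), fun _ => ?_⟩
    rw [DD, de_add, de_add, s1.2, s2.2, s3.2, ← smul_add, ← smul_add]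
    congr 1
    simp only [Dz, Pz, wp, one_mul, zero_mul, zero_add]
    set Θ := wp (F := F) (fun i => (t i).c) n
    set g0 := od (x * y 0).al
    set g1 := od (x * y 1).al
    set g2 := od (x * y 2).al
    have hΘc : ∀ w : ExteriorAlgebra F W, sg w = -w → Θ * w = w * Θ := by
      intro w hw; rw [mul_odd h2 _ _ hw, hΘ]
    have a0 : sg g0 = -g0 := hγ 0
    have a1 : sg g1 = -g1 := hγ 1
    have a2 : sg g2 = -g2 := hγ 2
    have b : ∀ w : W, sg (ExteriorAlgebra.ι F w) = -ExteriorAlgebra.ι F w := sg_ι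
    have t1 : g0 * (ExteriorAlgebra.ι F (y 1).c * Θ) * g2
        = g0 * ExteriorAlgebra.ι F (y 1).c * g2 * Θ := by
      simp only [mul_assoc]; rw [hΘc _ a2]
    have t2 : g1 * (ExteriorAlgebra.ι F (y 2).c * Θ) * g0
        = g0 * g1 * ExteriorAlgebra.ι F (y 2).c * Θ := by
      rw [mul_odd h2 _ _ a0, map_mul, a1, map_mul, b, hΘ]
      simp only [neg_mul, mul_neg, neg_neg, mul_assoc]
    have t3 : g2 * (ExteriorAlgebra.ι F (y 0).c * Θ) * g1
        = ExteriorAlgebra.ι F (y 0).c * g1 * g2 * Θ := by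
      have c1 : g2 * (ExteriorAlgebra.ι F (y 0).c * Θ) * g1
          = g2 * (ExteriorAlgebra.ι F (y 0).c * g1) * Θ := by
        simp only [mul_assoc]; rw [hΘc _ a1]
      rw [c1]
      have c2 : (ExteriorAlgebra.ι F (y 0).c * g1) * g2
          = g2 * (ExteriorAlgebra.ι F (y 0).c * g1) := by
        rw [mul_odd h2 _ _ a2, map_mul, b, a1, neg_mul_neg]
      rw [c2]
    rw [t1, t2, t3]
    noncomm_ring
  | succ j ih =>
    obtain ⟨o, l, v⟩ := ih
    obtain ⟨o', l', v'⟩ := PP_val h2 t n hn x y ζ j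
    have st := step_val h2 (DD F t n x y ζ j) (ζ j) (x * y (j + 3)) o (c_mul _ _)
    have st' := step_val h2 (PP F t n x y ζ j) (y (j + 3)) (x * y (j + 2)) o' (c_mul _ _)
    refine ⟨(st.1.smul _).sub st'.1, fun k hk => ?_, fun hj => ?_⟩
    · rw [DD, de_sub, de_smul]
      rcases k with _ | k
      · rw [st.2.1, st'.2.1, smul_zero, sub_zero]
      · rw [st.2.2.1, st'.2.2.1, l k (by omega), l' k (by omega)]
        simp
    · rw [DD, de_sub, de_smul, st.2.2.1, st'.2.2.1, v (by omega), v' (by omega), kap,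
        if_pos (by omega), one_smul, one_smul]
      have d1 := stepD1 h2 (fun i => od (x * y i).al) hγ (fun i => (y i).c) (fun i => (ζ i).c) _
        hΘ j
      have d2 := stepD2 h2 (fun i => od (x * y i).al) hγ (fun i => (y i).c) (fun i => (ζ i).c) _
        hΘ j
      rw [d1, d2, smul_smul ((-1 : F) ^ (j + 1)), ← mul_pow, neg_one_mul, neg_neg, one_pow,
        one_smul, sub_neg_eq_add, ← smul_add, ← add_mul]
      rfl

theorem DD_final : DD F t n x y ζ (N + 1) = mk 0 0 (fun _ => 0)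
    (2 * τ (Dz (fun i => od (x * y i).al) (fun i => (y i).c) (N + 4)
        * (wp (fun i => (ζ i).c) (N + 1) * wp (fun i => (t i).c) n))) := by
  have hγ : ∀ i, sg (od (x * y i).al) = -od (x * y i).al := fun i => sg_od _
  have hΘ : sg (wp (F := F) (fun i => (t i).c) n) = wp (fun i => (t i).c) n := by
    rw [sg_wp, hn.neg_one_pow, one_smul]
  obtain ⟨o, l, v⟩ := DD_val h2 t n hn x y ζ N
  obtain ⟨o', l', v'⟩ := PP_val h2 t n hn x y ζ N
  have st := step_val h2 (DD F t n x y ζ N) (ζ N) (x * y (N + 3)) o (c_mul _ _)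
  have st' := step_val h2 (PP F t n x y ζ N) (y (N + 3)) (x * y (N + 2)) o' (c_mul _ _)
  have d1 := stepD1 h2 (fun i => od (x * y i).al) hγ (fun i => (y i).c) (fun i => (ζ i).c) _
    hΘ N
  have d2 := stepD2 h2 (fun i => od (x * y i).al) hγ (fun i => (y i).c) (fun i => (ζ i).c) _
    hΘ N
  refine ext ?_ ?_ (fun k => ?_) ?_
  · rw [DD]; simp [st.1.c, st'.1.c]
  · rw [DD]; simp [st.1.al, st'.1.al]
  · rw [DD, de_sub, de_smul, de_mk]
    rcases k with _ | k
    · rw [st.2.1, st'.2.1, smul_zero, sub_zero]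
    · rw [st.2.2.1, st'.2.2.1]
      by_cases hk : k < N
      · rw [l k hk, l' k hk]; simp
      · rw [kap, if_neg hk]; simp
  · rw [DD, z_sub, z_smul, st.2.2.2, st'.2.2.2, v le_rfl, v' le_rfl, z_mk]
    rw [d1, d2, map_smul, smul_smul ((-1 : F) ^ (N + 1)), ← mul_pow, neg_one_mul, neg_neg,
      one_pow, one_smul, ← map_sub, sub_neg_eq_add, ← smul_add, ← add_mul, map_smul, smul_eq_mul]
    rfl

end main

end Alg

end Pool.Agent.H739SJ
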